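import Pool.Agent.H840.MX.Stm

set_option autoImplicit false

/-! # MP_afef76_ag : the Cayley-Bacharach lemma `S_CB` -/

namespace Pool.Agent.H638.MX

open MvPolynomial Pool.Agent.T2H40.MI Pool.Agent.H840.MX

lemma irr_lin {r : Fin 3 → ℂ} (hr : r ≠ 0) : Irreducible (lin r) := by
  have h0 : lin r ≠ 0 := lin_ne_zero hr
  have h1 : (lin r).totalDegree = 1 := (lin_hom r).totalDegree h0
  refine irreducible_of_totalDegree_eq_one h1 ?_
  intro x hx
  obtain ⟨i, hi⟩ : ∃ i, r i ≠ 0 := by
    by_contra hcon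
    push Not at hcon
    exact hr (funext hcon)
  have h2 := hx (Finsupp.single i 1)
  have h3 : coeff (Finsupp.single i 1) (lin r) = r i := coeff_lin r i
  have h4 : x ∣ r i := by
    rw [← h3]; exact h2
  exact isUnit_of_dvd_unit h4 (isUnit_iff_ne_zero.mpr hi)

lemma prime_lin {r : Fin 3 → ℂ} (hr : r ≠ 0) : Prime (lin r) :=
  UniqueFactorizationMonoid.irreducible_iff_prime.mp (irr_lin hr)

/-- degree of a factor -/
lemma deg_mul {a b : S} {k l : ℕ} (ha : a.IsHomogeneous k) (h : (a * b).IsHomogeneous l)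
    (h0 : a * b ≠ 0) : l = k + b.totalDegree := by
  have ha0 : a ≠ 0 := left_ne_zero_of_mul h0
  have hb0 : b ≠ 0 := right_ne_zero_of_mul h0
  have h1 := h.totalDegree h0
  rw [totalDegree_mul_of_isDomain ha0 hb0, ha.totalDegree ha0] at h1
  exact h1.symm

lemma small_dvd {F P : S} {k l : ℕ} (hF : F.IsHomogeneous k) (hP : P.IsHomogeneous l)
    (hlk : l < k) (h : F ∣ P) : P = 0 := by
  by_contra h0
  obtain ⟨c, rfl⟩ := h
  have := deg_mul hF hP h0
  omega

lemma lin_dvd {r s : Fin 3 → ℂ} (hs : s ≠ 0) (h : lin r ∣ lin s) : ∃ t : ℂ, s = t • r := by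
  obtain ⟨c, hc⟩ := h
  have h0 : lin r * c ≠ 0 := by rw [← hc]; exact lin_ne_zero hs
  have h1 : (lin r * c).IsHomogeneous 1 := by rw [← hc]; exact lin_hom s
  have h2 := deg_mul (lin_hom r) h1 h0
  have h3 : c.totalDegree = 0 := by omega
  rw [totalDegree_eq_zero_iff_eq_C] at h3
  refine ⟨coeff 0 c, ?_⟩
  funext i
  have h4 : lin s = lin (coeff 0 c • r) := by
    rw [lin_smul, hc, mul_comm, ← h3]
  have h5 : coeff (Finsupp.single i 1) (lin s) = coeff (Finsupp.single i 1)
      (lin (coeff 0 c • r)) := by rw [h4]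
  rw [coeff_lin, coeff_lin] at h5
  exact h5

/-- two independent linear forms through a point -/
lemma two_forms {p : Fin 3 → ℂ} (hp : p ≠ 0) : ∃ r s : Fin 3 → ℂ, r ≠ 0 ∧ s ≠ 0 ∧
    r ⬝ᵥ p = 0 ∧ s ⬝ᵥ p = 0 ∧ ∀ t : ℂ, s ≠ t • r := by
  obtain ⟨i, hi⟩ : ∃ i, p i ≠ 0 := by
    by_contra hcon
    push Not at hcon
    exact hp (funext hcon)
  fin_cases i
  · have hi : p 0 ≠ 0 := hi
    refine ⟨![-p 1, p 0, 0], ![-p 2, 0, p 0], ?_, ?_, ?_, ?_, ?_⟩
    · intro h; have := congrFun h 1; simp at this; exact hi this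
    · intro h; have := congrFun h 2; simp at this; exact hi this
    · simp [dotProduct, Fin.sum_univ_three]; ring
    · simp [dotProduct, Fin.sum_univ_three]; ring
    · intro t h; have := congrFun h 2; simp at this; exact hi this
  · have hi : p 1 ≠ 0 := hi
    refine ⟨![p 1, -p 0, 0], ![0, -p 2, p 1], ?_, ?_, ?_, ?_, ?_⟩
    · intro h; have := congrFun h 0; simp at this; exact hi this
    · intro h; have := congrFun h 2; simp at this; exact hi this
    · simp [dotProduct, Fin.sum_univ_three]; ring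
    · simp [dotProduct, Fin.sum_univ_three]; ring
    · intro t h; have := congrFun h 2; simp at this; exact hi this
  · have hi : p 2 ≠ 0 := hi
    refine ⟨![p 2, 0, -p 0], ![0, p 2, -p 1], ?_, ?_, ?_, ?_, ?_⟩
    · intro h; have := congrFun h 0; simp at this; exact hi this
    · intro h; have := congrFun h 1; simp at this; exact hi this
    · simp [dotProduct, Fin.sum_univ_three]; ring
    · simp [dotProduct, Fin.sum_univ_three]; ring
    · intro t h; have := congrFun h 1; simp at this; exact hi this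

theorem CB (hN : S_NOE) : S_CB := by
  intro F g Q T d h hd hh hz
  have hFp : Prime F := UniqueFactorizationMonoid.irreducible_iff_prime.mp T.irr
  obtain ⟨r, s, hr, hs, hrp, hsp, hrs⟩ := two_forms (T.ne (Fin.last 11))
  -- the product with a linear form through the last point
  have key : ∀ r : Fin 3 → ℂ, r ⬝ᵥ Q (Fin.last 11) = 0 → ∃ a b : S, lin r * h = a * F + b * g ∧
      b.IsHomogeneous (d - 3) ∧ (b ≠ 0 → 3 ≤ d) := by
    intro r hr
    have h1 : (lin r * h).IsHomogeneous (d + 1) := by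
      have := (lin_hom r).mul hh
      rwa [add_comm] at this
    have h2 : ∀ i, eval (Q i) (lin r * h) = 0 := by
      intro i
      rw [map_mul, eval_lin]
      by_cases hi : i = Fin.last 11
      · rw [hi, hr, zero_mul]
      · rw [hz i hi, mul_zero]
    obtain ⟨a, b, hab, -, -, hb, hb'⟩ := hN F g Q T (d + 1) (lin r * h) h1 h2
    refine ⟨a, b, hab, ?_, ?_⟩
    · have : d + 1 - 4 = d - 3 := by omega
      rwa [this] at hb
    · intro hb0
      have := hb' hb0
      omega
  obtain ⟨a, b, hab, hb, hb'⟩ := key r hrp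
  obtain ⟨a', b', hab', hb2, -⟩ := key s hsp
  have done_case : F ∣ h → ∃ (a : S) (β : ℂ), h = a * F + C β * g ∧ (β ≠ 0 → d = 4) := by
    rintro ⟨c, hc⟩
    refine ⟨c, 0, ?_, fun h => absurd rfl h⟩
    rw [hc]; simp; ring
  have hndr : ∀ {r : Fin 3 → ℂ}, r ≠ 0 → ¬ F ∣ lin r := by
    intro r hr hdv
    exact lin_ne_zero hr (small_dvd T.hF (lin_hom r) (by norm_num) hdv)
  by_cases hb0 : b = 0
  · apply done_case
    have h1 : F ∣ lin r * h := ⟨a, by rw [hab, hb0]; ring⟩
    rcases hFp.dvd_or_dvd h1 with h2 | h2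
    · exact absurd h2 (hndr hr)
    · exact h2
  have hd3 := hb' hb0
  have h1 : F ∣ h * (lin r * b' - lin s * b) := by
    refine ⟨a * b' - a' * b, ?_⟩
    have : h * (lin r * b' - lin s * b) = (lin r * h) * b' - (lin s * h) * b := by ring
    rw [this, hab, hab']; ring
  rcases hFp.dvd_or_dvd h1 with h2 | h2
  · exact done_case h2
  have h3 : (lin r * b' - lin s * b).IsHomogeneous (1 + (d - 3)) :=
    ((lin_hom r).mul hb2).sub ((lin_hom s).mul hb)
  have h4 := small_dvd T.hF h3 (by omega) h2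
  have h5 : lin r ∣ lin s * b := ⟨b', by linear_combination -h4⟩
  rcases (prime_lin hr).dvd_or_dvd h5 with h6 | h6
  · obtain ⟨t, ht⟩ := lin_dvd hs h6
    exact absurd ht (hrs t)
  obtain ⟨c, rfl⟩ := h6
  have h7 := deg_mul (lin_hom r) hb hb0
  have hd4 : d = 4 := by omega
  have h8 : c.totalDegree = 0 := by omega
  rw [totalDegree_eq_zero_iff_eq_C] at h8
  have h9 : lin r * (h - c * g) = a * F := by
    have : lin r * (h - c * g) = lin r * h - lin r * c * g := by ring
    rw [this, hab]; ring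
  have h10 : F ∣ lin r * (h - c * g) := ⟨a, by rw [h9]; ring⟩
  rcases hFp.dvd_or_dvd h10 with h11 | h11
  · exact absurd h11 (hndr hr)
  obtain ⟨e, he⟩ := h11
  refine ⟨e, coeff 0 c, ?_, fun _ => hd4⟩
  rw [← h8]
  linear_combination he

end Pool.Agent.H638.MX
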